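import Mathlib

set_option autoImplicit false

/-!
Groups `G = A B A` with conjugate infinite cyclic subgroups `A`, `B`, where `A` is not malnormal.
-/

namespace Pool.Agent.Work.MP_302c96_al

open Subgroup

variable {G : Type*} [Group G]

/-- `G = A B A` with `A` generated by `a`, `B` generated by the conjugate `b` of `a`. -/
structure Aba (a b x : G) : Prop where
  hb : b = x * a * x⁻¹
  gen : ∀ g : G, ∃ i j k : ℤ, g = a ^ i * b ^ j * a ^ k
  inf : ∀ n : ℤ, a ^ n = 1 → n = 0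

variable {a b x : G}

lemma Aba.zpow_b (h : Aba a b x) (n : ℤ) : b ^ n = x * a ^ n * x⁻¹ := by
  rw [h.hb, conj_zpow]

lemma Aba.inf_b (h : Aba a b x) (n : ℤ) (hn : b ^ n = 1) : n = 0 := by
  rw [h.zpow_b] at hn
  exact h.inf n (conj_eq_one_iff.1 hn)

lemma Aba.inj (h : Aba a b x) {m n : ℤ} (hn : a ^ m = a ^ n) : m = n := by
  have : a ^ (m - n) = 1 := by rw [zpow_sub, hn, mul_inv_cancel]
  have := h.inf _ this
  omega

/-- If `g = a ^ i * b ^ j * a ^ k` commutes with `a ^ n`, so does `b ^ j`. -/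
lemma comm_mid {g : G} {i j k n : ℤ} (hg : g = a ^ i * b ^ j * a ^ k)
    (hc : Commute g (a ^ n)) : Commute (b ^ j) (a ^ n) := by
  have e : b ^ j = a ^ (-i) * g * a ^ (-k) := by
    rw [hg]
    group
  rw [e]
  exact ((Commute.zpow_zpow_self a _ _).mul_left hc).mul_left (Commute.zpow_zpow_self a _ _)

lemma comm_of_mid {g : G} {i j k n : ℤ} (hg : g = a ^ i * b ^ j * a ^ k)
    (hc : Commute (b ^ j) (a ^ n)) : Commute g (a ^ n) := by
  rw [hg]
  exact ((Commute.zpow_zpow_self a _ _).mul_left hc).mul_left (Commute.zpow_zpow_self a _ _)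

/-- One half of the first step. -/
lemma Aba.half (h : Aba a b x) {s : G} {m n : ℤ} (hs : s * a ^ m * s⁻¹ = a ^ n) :
    (∃ j : ℤ, j ≠ 0 ∧ Commute (b ^ j) (a ^ n)) ∨ ∃ c : ℤ, s * a * s⁻¹ = a ^ c := by
  obtain ⟨i, j, k, hu⟩ := h.gen (s * a * s⁻¹)
  have hc : Commute (s * a * s⁻¹) (a ^ n) := by
    rw [← hs, ← conj_zpow]
    exact Commute.self_zpow _ _
  by_cases hj : j = 0
  · right
    subst hj
    exact ⟨i + k, by rw [hu, zpow_zero, mul_one, zpow_add]⟩
  · exact Or.inl ⟨j, hj, comm_mid hu hc⟩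

/-- First step: nontrivial powers of `a` and `b` commute. -/
lemma Aba.commuting (h : Aba a b x) {t : G} (ht : t ∉ zpowers a) {m n : ℤ} (hm : m ≠ 0)
    (htm : t * a ^ m * t⁻¹ = a ^ n) :
    ∃ e : ℕ, 0 < e ∧ Commute (a ^ e) (b ^ e) := by
  have key : ∃ j n : ℤ, j ≠ 0 ∧ n ≠ 0 ∧ Commute (b ^ j) (a ^ n) := by
    have hn : n ≠ 0 := by
      rintro rfl
      rw [zpow_zero] at htm
      exact hm (h.inf m (conj_eq_one_iff.1 htm))
    obtain ⟨i, j, k, rfl⟩ := h.gen t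
    have hj : j ≠ 0 := by
      rintro rfl
      apply ht
      rw [zpow_zero, mul_one]
      exact mul_mem (zpow_mem (mem_zpowers a) _) (zpow_mem (mem_zpowers a) _)
    have hs : b ^ j * a ^ m * (b ^ j)⁻¹ = a ^ n := by
      have e : b ^ j * a ^ m * (b ^ j)⁻¹ =
          a ^ (-i) * (a ^ i * b ^ j * a ^ k * a ^ m * (a ^ i * b ^ j * a ^ k)⁻¹) * a ^ i := by
        have : a ^ k * a ^ m = a ^ m * a ^ k := by rw [← zpow_add, ← zpow_add, add_comm]
        calc b ^ j * a ^ m * (b ^ j)⁻¹ = b ^ j * (a ^ m * a ^ k) * (a ^ k)⁻¹ * (b ^ j)⁻¹ := by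
              group
          _ = _ := by
              rw [← this]
              group
      rw [e, htm]
      group
    have hs' : (b ^ j)⁻¹ * a ^ n * (b ^ j)⁻¹⁻¹ = a ^ m := by
      rw [← hs]
      group
    rcases h.half hs with ⟨j1, hj1, hc⟩ | ⟨c, hc⟩
    · exact ⟨j1, n, hj1, hn, hc⟩
    rcases h.half hs' with ⟨j2, hj2, hc'⟩ | ⟨c', hc'⟩
    · exact ⟨j2, m, hj2, hm, hc'⟩
    have e1 : a = a ^ (c * c') := by
      calc a = b ^ j * ((b ^ j)⁻¹ * a * (b ^ j)⁻¹⁻¹) * (b ^ j)⁻¹ := by group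
        _ = (b ^ j * a * (b ^ j)⁻¹) ^ c' := by rw [hc', conj_zpow]
        _ = a ^ (c * c') := by rw [hc, zpow_mul]
    have e2 : c * c' = 1 := by
      have : a ^ (1 : ℤ) = a ^ (c * c') := by rw [zpow_one]; exact e1
      exact (h.inj this).symm
    have e3 : c * c = 1 := by
      rcases Int.eq_one_or_neg_one_of_mul_eq_one e2 with h1 | h1 <;> rw [h1] <;> norm_num
    refine ⟨2 * j, 1, by omega, one_ne_zero, ?_⟩
    have e4 : b ^ j * a ^ c * (b ^ j)⁻¹ = a := by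
      rw [← conj_zpow, hc, ← zpow_mul, e3, zpow_one]
    have e5 : b ^ (2 * j) * a * (b ^ (2 * j))⁻¹ = a := by
      calc b ^ (2 * j) * a * (b ^ (2 * j))⁻¹ = b ^ j * (b ^ j * a * (b ^ j)⁻¹) * (b ^ j)⁻¹ := by
            rw [two_mul, zpow_add]
            group
        _ = a := by rw [hc, e4]
    rw [zpow_one]
    exact mul_inv_eq_iff_eq_mul.1 e5
  obtain ⟨j, n, hj, hn, hc⟩ := key
  refine ⟨(j * n).natAbs * (j * n).natAbs, by positivity, ?_⟩
  have e : (((j * n).natAbs * (j * n).natAbs : ℕ) : ℤ) = (j * n) * (j * n) :=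
    Int.natAbs_mul_self
  rw [← zpow_natCast, ← zpow_natCast, e]
  have e1 : a ^ (j * n * (j * n)) = (a ^ n) ^ (j * n * j) := by
    rw [← zpow_mul]
    congr 1
    ring
  have e2 : b ^ (j * n * (j * n)) = (b ^ j) ^ (n * (j * n)) := by
    rw [← zpow_mul]
    congr 1
    ring
  rw [e1, e2]
  exact (hc.symm.zpow_left _).zpow_right _

/-- The uniform exponent. -/
structure Unif (a b x : G) (E : ℕ) : Prop extends Aba a b x where
  pos : 0 < E
  comm : Commute (a ^ E) (b ^ E)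
  va : ∀ (g : G) (n : ℤ), n ≠ 0 → Commute g (a ^ n) → Commute g (a ^ E)
  vb : ∀ (g : G) (n : ℤ), n ≠ 0 → Commute g (b ^ n) → Commute g (b ^ E)

lemma Aba.unif (h : Aba a b x) {e : ℕ} (he : 0 < e) (hc : Commute (a ^ e) (b ^ e)) :
    ∃ E : ℕ, Unif a b x E := by
  have h1 : ∀ r : ℕ, ∃ n : ℕ, 0 < n ∧ ((∃ m : ℤ, m ≠ 0 ∧ Commute (b ^ r) (a ^ m)) →
      Commute (b ^ r) (a ^ n)) := by
    intro r
    by_cases hr : ∃ m : ℤ, m ≠ 0 ∧ Commute (b ^ r) (a ^ m)
    · obtain ⟨m, hm, hc⟩ := hr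
      refine ⟨m.natAbs * m.natAbs, by positivity, fun _ => ?_⟩
      have e : ((m.natAbs * m.natAbs : ℕ) : ℤ) = m * m := Int.natAbs_mul_self
      rw [← zpow_natCast a, e, zpow_mul]
      exact hc.zpow_right _
    · exact ⟨1, one_pos, fun h => absurd h hr⟩
  choose n hn0 hn using h1
  set E := e * ∏ r ∈ Finset.range e, n r with hE
  have hE0 : 0 < E := Nat.mul_pos he (Finset.prod_pos fun r _ => hn0 r)
  obtain ⟨q0, hq0⟩ : e ∣ E := ⟨_, rfl⟩
  have hcE : Commute (a ^ E) (b ^ e) := by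
    rw [hq0, pow_mul]
    exact hc.pow_left _
  have hva : ∀ (g : G) (n : ℤ), n ≠ 0 → Commute g (a ^ n) → Commute g (a ^ E) := by
    intro g m hm hg
    obtain ⟨i, j, k, hg'⟩ := h.gen g
    have hj := comm_mid hg' hg
    rw [← zpow_natCast]
    refine comm_of_mid hg' ?_
    rw [zpow_natCast]
    have hez : (0 : ℤ) < e := by exact_mod_cast he
    obtain ⟨r, hr⟩ : ∃ r : ℕ, (r : ℤ) = j % e := ⟨(j % e).toNat, Int.toNat_of_nonneg
      (Int.emod_nonneg _ hez.ne')⟩
    have hre : r < e := by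
      have := Int.emod_lt_of_pos j hez
      omega
    have hjr : j = e * (j / e) + r := by
      rw [hr]
      exact (Int.mul_ediv_add_emod j e).symm
    have hbe : Commute (b ^ ((e : ℤ) * (j / e))) (a ^ (m * e)) := by
      rw [zpow_mul, mul_comm, zpow_mul, zpow_natCast, zpow_natCast]
      exact (hc.symm.zpow_left _).zpow_right _
    have hbr : Commute (b ^ r) (a ^ (m * e)) := by
      have e1 : b ^ r = (b ^ ((e : ℤ) * (j / e)))⁻¹ * b ^ j := by
        rw [← zpow_natCast, ← zpow_neg, ← zpow_add]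
        congr 1
        omega
      rw [e1]
      refine hbe.inv_left.mul_left ?_
      rw [zpow_mul]
      exact hj.zpow_right _
    have hbr' := hn r ⟨m * e, mul_ne_zero hm hez.ne', hbr⟩
    obtain ⟨q, hq⟩ : n r ∣ E := (Finset.dvd_prod_of_mem n (Finset.mem_range.2 hre)).trans
      (Dvd.intro_left _ rfl)
    have e2 : b ^ j = b ^ ((e : ℤ) * (j / e)) * b ^ r := by
      rw [← zpow_natCast, ← zpow_add, ← hjr]
    rw [e2]
    refine Commute.mul_left ?_ ?_
    · rw [zpow_mul, zpow_natCast]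
      exact hcE.symm.zpow_left _
    · rw [hq, pow_mul]
      exact hbr'.pow_right _
  refine ⟨E, h, hE0, ?_, hva, ?_⟩
  · have : Commute (a ^ E) ((b ^ e) ^ q0) := hcE.pow_right _
    rwa [← pow_mul, ← hq0] at this
  · intro g m hm hg
    have e1 : ∀ k : ℤ, b ^ k = x * a ^ k * x⁻¹ := h.zpow_b
    have h2 : Commute (x⁻¹ * g * x) (a ^ m) := by
      have : a ^ m = x⁻¹ * b ^ m * x := by rw [e1]; group
      rw [this]
      show x⁻¹ * g * x * (x⁻¹ * b ^ m * x) = x⁻¹ * b ^ m * x * (x⁻¹ * g * x)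
      have h3 : g * b ^ m = b ^ m * g := hg
      calc x⁻¹ * g * x * (x⁻¹ * b ^ m * x) = x⁻¹ * (g * b ^ m) * x := by group
        _ = x⁻¹ * (b ^ m * g) * x := by rw [h3]
        _ = _ := by group
    have h3 := hva _ m hm h2
    have h4 : x⁻¹ * g * x * a ^ E = a ^ E * (x⁻¹ * g * x) := h3
    have h5 : b ^ E = x * a ^ E * x⁻¹ := by
      have := e1 E
      simpa using this
    rw [h5]
    show g * (x * a ^ E * x⁻¹) = x * a ^ E * x⁻¹ * g
    calc g * (x * a ^ E * x⁻¹) = x * (x⁻¹ * g * x * a ^ E) * x⁻¹ := by group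
      _ = x * (a ^ E * (x⁻¹ * g * x)) * x⁻¹ := by rw [h4]
      _ = _ := by group

end Pool.Agent.Work.MP_302c96_al
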