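import Pool.Agent.Work.MP_302c96_al.Aba

set_option autoImplicit false

/-!
The subgroup generated by `a ^ E`, `b ^ E` has finite index in the centralizer of `a ^ E`.
-/

namespace Pool.Agent.Work.MP_302c96_al

open Subgroup Pointwise

variable {G : Type*} [Group G] {a b x : G} {E : ℕ}

/-- The products of powers of two commuting elements. -/
def NN (p q : G) (h : Commute p q) : Subgroup G where
  carrier := {g | ∃ u v : ℤ, g = p ^ u * q ^ v}
  one_mem' := ⟨0, 0, by simp⟩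
  mul_mem' := by
    rintro _ _ ⟨u, v, rfl⟩ ⟨u', v', rfl⟩
    refine ⟨u + u', v + v', ?_⟩
    have h1 : q ^ v * p ^ u' = p ^ u' * q ^ v := ((h.zpow_left u').zpow_right v).symm
    calc p ^ u * q ^ v * (p ^ u' * q ^ v') = p ^ u * (q ^ v * p ^ u') * q ^ v' := by group
      _ = p ^ (u + u') * q ^ (v + v') := by
        rw [h1, zpow_add, zpow_add]
        group
  inv_mem' := by
    rintro _ ⟨u, v, rfl⟩
    refine ⟨-u, -v, ?_⟩
    have h1 : q ^ (-v) * p ^ (-u) = p ^ (-u) * q ^ (-v) := ((h.zpow_left _).zpow_right _).symm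
    rw [← h1, mul_inv_rev, zpow_neg, zpow_neg]

lemma mem_NN {p q : G} (h : Commute p q) {g : G} :
    g ∈ NN p q h ↔ ∃ u v : ℤ, g = p ^ u * q ^ v := Iff.rfl

/-- The centralizer of `a ^ E`. -/
abbrev CC (a : G) (E : ℕ) : Subgroup G := centralizer {a ^ E}

lemma mem_CC {g : G} : g ∈ CC a E ↔ Commute g (a ^ E) := by
  rw [mem_centralizer_singleton_iff]
  exact Iff.rfl

lemma fin_alg {A1 A2 B1 P Q R : G} (c2 : Q * B1 = B1 * Q) (c3 : R * Q = Q * R) :
    B1 * A2 * ((A1 * (B1 * A2))⁻¹ * (A1 * P * (R * B1) * (Q * A2))) * (B1 * A2)⁻¹ =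
      P * Q * R := by
  calc B1 * A2 * ((A1 * (B1 * A2))⁻¹ * (A1 * P * (R * B1) * (Q * A2))) * (B1 * A2)⁻¹
      = P * (R * (B1 * Q)) * B1⁻¹ := by group
    _ = P * (R * Q) * B1 * B1⁻¹ := by rw [← c2]; group
    _ = P * Q * R := by rw [c3]; group

lemma Unif.NN_le (h : Unif a b x E) : NN (a ^ E) (b ^ E) h.comm ≤ CC a E := by
  rintro _ ⟨u, v, rfl⟩
  rw [mem_CC]
  exact ((Commute.refl _).zpow_left u).mul_left (h.comm.symm.zpow_left v)

open Classical in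
lemma Unif.finite (h : Unif a b x E) : (NN (a ^ E) (b ^ E) h.comm).relIndex (CC a E) ≠ 0 := by
  set N := NN (a ^ E) (b ^ E) h.comm with hN
  have ha : ∀ k : ℤ, a ^ k ∈ CC a E := fun k => by
    rw [mem_CC, ← zpow_natCast]
    exact Commute.zpow_zpow_self a _ _
  set ι := Fin E × {j : Fin E // b ^ (j : ℕ) ∈ CC a E} × Fin E with hι
  -- the representatives
  let w : ι → CC a E := fun i =>
    ⟨b ^ ((i.2.1 : Fin E) : ℕ) * a ^ (((i.2.2 : Fin E) : ℕ) : ℤ), mul_mem i.2.1.2 (ha _)⟩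
  let g : ι → CC a E := fun i => ⟨a ^ (((i.1 : Fin E) : ℕ) : ℤ), ha _⟩ * w i
  let H : ι → Subgroup (CC a E) := fun i => MulAut.conj (w i)⁻¹ • (N.subgroupOf (CC a E))
  have hE : (0 : ℤ) < E := by exact_mod_cast h.pos
  have hmod : ∀ k : ℤ, ∃ (r : Fin E) (q : ℤ), k = E * q + ((r : ℕ) : ℤ) := by
    intro k
    have h1 := Int.emod_nonneg k hE.ne'
    have h2 := Int.emod_lt_of_pos k hE
    refine ⟨⟨(k % E).toNat, by omega⟩, k / E, ?_⟩
    simp only [Int.toNat_of_nonneg h1]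
    exact (Int.mul_ediv_add_emod k E).symm
  have hcov : ⋃ i ∈ (Finset.univ : Finset ι), g i • (H i : Set (CC a E)) = Set.univ := by
    rw [Set.eq_univ_iff_forall]
    rintro ⟨c, hc⟩
    rw [mem_CC] at hc
    obtain ⟨i, j, k, hc'⟩ := h.gen c
    have hj : Commute (b ^ j) (a ^ E) := by
      rw [← zpow_natCast] at hc ⊢
      exact comm_mid hc' hc
    obtain ⟨i', i1, hi⟩ := hmod i
    obtain ⟨j', j1, hj1⟩ := hmod j
    obtain ⟨k', k1, hk⟩ := hmod k
    have hbj : b ^ (j' : ℕ) ∈ CC a E := by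
      rw [mem_CC]
      have e1 : b ^ (j' : ℕ) = ((b ^ E) ^ j1)⁻¹ * b ^ j := by
        rw [hj1, zpow_add, zpow_mul, zpow_natCast, zpow_natCast]
        group
      rw [e1]
      exact ((h.comm.symm.zpow_left j1).inv_left).mul_left hj
    let idx : ι := ⟨i', ⟨j', hbj⟩, k'⟩
    rw [Set.mem_iUnion₂]
    refine ⟨idx, Finset.mem_univ _, ?_⟩
    rw [Set.mem_smul_set_iff_inv_smul_mem, smul_eq_mul, SetLike.mem_coe]
    show _ ∈ MulAut.conj (w idx)⁻¹ • (N.subgroupOf (CC a E))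
    rw [Subgroup.mem_pointwise_smul_iff_inv_smul_mem, ← map_inv, inv_inv, MulAut.smul_def,
      MulAut.conj_apply, mem_subgroupOf]
    refine ⟨i1 + k1, j1, ?_⟩
    simp only [g, w, idx, Subgroup.coe_mul, Subgroup.coe_inv]
    rw [hc', hi, hj1, hk]
    have c1 : (a ^ E) ^ k1 * a ^ (((k' : ℕ) : ℤ)) = a ^ (((k' : ℕ) : ℤ)) * (a ^ E) ^ k1 := by
      rw [← zpow_natCast a E, ← zpow_mul, ← zpow_add, ← zpow_add, add_comm]
    have c2 : (a ^ E) ^ k1 * b ^ (j' : ℕ) = b ^ (j' : ℕ) * (a ^ E) ^ k1 :=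
      ((mem_CC.1 hbj).symm.zpow_left k1)
    have c3 : (b ^ E) ^ j1 * (a ^ E) ^ k1 = (a ^ E) ^ k1 * (b ^ E) ^ j1 :=
      ((h.comm.zpow_left k1).zpow_right j1).symm
    have c4 : (a ^ E) ^ i1 * a ^ (((i' : ℕ) : ℤ)) = a ^ (((i' : ℕ) : ℤ)) * (a ^ E) ^ i1 := by
      rw [← zpow_natCast a E, ← zpow_mul, ← zpow_add, ← zpow_add, add_comm]
    have d1 : a ^ ((E : ℤ) * i1 + ((i' : ℕ) : ℤ)) = (a ^ E) ^ i1 * a ^ (((i' : ℕ) : ℤ)) := by
      rw [zpow_add, zpow_mul, zpow_natCast]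
    have d2 : a ^ ((E : ℤ) * k1 + ((k' : ℕ) : ℤ)) = (a ^ E) ^ k1 * a ^ (((k' : ℕ) : ℤ)) := by
      rw [zpow_add, zpow_mul, zpow_natCast]
    have d3 : b ^ ((E : ℤ) * j1 + ((j' : ℕ) : ℤ)) = (b ^ E) ^ j1 * b ^ (j' : ℕ) := by
      rw [zpow_add, zpow_mul, zpow_natCast, zpow_natCast]
    rw [d1, d2, d3, c4, zpow_add]
    exact fin_alg c2 c3
  obtain ⟨k, -, hk⟩ := exists_finiteIndex_of_leftCoset_cover hcov
  have e : (H k).index = (N.subgroupOf (CC a E)).index := by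
    show (MulAut.conj (w k)⁻¹ • (N.subgroupOf (CC a E))).index = _
    exact Subgroup.index_map_of_bijective
      (f := MulDistribMulAction.toMonoidEnd _ _ (MulAut.conj (w k)⁻¹)) (MulAction.bijective _) _
  have := hk.index_ne_zero
  rw [e] at this
  exact this

end Pool.Agent.Work.MP_302c96_al
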