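import Pool.Agent.Work.MP_302c96_al.Fin

set_option autoImplicit false

/-!
The squares of `a`, `b` commute with `a ^ E`, `b ^ E`, and the subgroup of all elements which
commute with `a ^ E` and `b ^ E` is normal.
-/

namespace Pool.Agent.Work.MP_302c96_al

open Subgroup Pointwise

variable {G : Type*} [Group G] {a b x : G} {E : ℕ}

lemma Unif.pow_mem (h : Unif a b x E) {m : G} (hm : Commute m (a ^ E)) :
    ∃ r : ℕ, 0 < r ∧ ∃ u v : ℤ, m ^ r = (a ^ E) ^ u * (b ^ E) ^ v := by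
  obtain ⟨r, hr, -, hr'⟩ := exists_pow_mem_of_relIndex_ne_zero h.finite (mem_CC.2 hm)
  exact ⟨r, hr, hr'.1⟩

/-- The uniform data, with `A` and `B` independent. -/
structure Ind (a b x : G) (E : ℕ) : Prop extends Unif a b x E where
  ind : ∀ i j : ℤ, a ^ i = b ^ j → i = 0

lemma Ind.ind' (h : Ind a b x E) {w z : ℤ} (hw : (a ^ E) ^ w = (b ^ E) ^ z) : w = 0 ∧ z = 0 := by
  have hE : (E : ℤ) ≠ 0 := by exact_mod_cast h.pos.ne'
  have h1 : a ^ ((E : ℤ) * w) = b ^ ((E : ℤ) * z) := by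
    rw [zpow_mul, zpow_mul, zpow_natCast, zpow_natCast, hw]
  have h2 := h.ind _ _ h1
  have h3 : w = 0 := (mul_eq_zero.1 h2).resolve_left hE
  rw [h2, zpow_zero] at h1
  have h4 := h.inf_b _ h1.symm
  exact ⟨h3, (mul_eq_zero.1 h4).resolve_left hE⟩

lemma conj_comm {g p q : G} (h : Commute p q) (hg : Commute g q) :
    Commute (g * p * g⁻¹) q := (hg.mul_left h).mul_left hg.inv_left

lemma self_comm (a : G) (E : ℕ) (i : ℤ) : Commute (a ^ i) (a ^ E) := by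
  rw [← zpow_natCast]
  exact Commute.zpow_zpow_self a _ _

lemma conj_pow' (g p : G) (n : ℕ) : (g * p * g⁻¹) ^ n = g * p ^ n * g⁻¹ := conj_pow

theorem Ind.sq_a (h : Ind a b x E) : Commute (a ^ 2) (b ^ E) := by
  have ha : Commute a (a ^ E) := by simp
  obtain ⟨r, hr, u, v, he⟩ := h.pow_mem (conj_comm h.comm.symm ha)
  rw [conj_pow'] at he
  set P := a ^ E with hP
  set Q := b ^ E with hQ
  have hPQ : Commute P Q := h.comm
  have hu : ∀ z : ℤ, a * P ^ z * a⁻¹ = P ^ z := fun z => by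
    rw [(ha.zpow_right z).eq, mul_assoc, mul_inv_cancel, mul_one]
  have key : ∀ k : ℕ, ∃ w : ℤ, a ^ k * Q ^ (((r : ℤ) ^ k)) * (a ^ k)⁻¹ = P ^ w * Q ^ (v ^ k) := by
    intro k
    induction k with
    | zero => exact ⟨0, by simp⟩
    | succ k ih =>
      obtain ⟨w, hw⟩ := ih
      refine ⟨w * r + u * v ^ k, ?_⟩
      have e1 : a ^ (k + 1) * Q ^ (((r : ℤ) ^ (k + 1))) * (a ^ (k + 1))⁻¹ =
          a * (a ^ k * Q ^ (((r : ℤ) ^ k)) * (a ^ k)⁻¹) ^ (r : ℤ) * a⁻¹ := by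
        rw [conj_zpow, ← zpow_mul, ← pow_succ, pow_succ' a]
        group
      have hc : Commute (P ^ w) (Q ^ (v ^ k)) := (hPQ.zpow_left _).zpow_right _
      rw [e1, hw, hc.mul_zpow, ← zpow_mul, ← zpow_mul]
      have e2 : a * (P ^ (w * r) * Q ^ (v ^ k * r)) * a⁻¹ =
          (a * P ^ (w * r) * a⁻¹) * (a * Q ^ r * a⁻¹) ^ (v ^ k) := by
        rw [conj_zpow, ← zpow_natCast Q r, ← zpow_mul, mul_comm (r : ℤ)]
        group
      rw [e2, hu, he]
      have hc' : Commute (P ^ u) (Q ^ v) := (hPQ.zpow_left _).zpow_right _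
      rw [hc'.mul_zpow, ← zpow_mul, ← zpow_mul, ← mul_assoc, ← zpow_add, pow_succ,
        mul_comm v (v ^ k)]
  obtain ⟨w, hw⟩ := key E
  have hcom : a ^ E * Q ^ (((r : ℤ) ^ E)) * (a ^ E)⁻¹ = Q ^ (((r : ℤ) ^ E)) := by
    rw [← hP, (hPQ.zpow_right _).eq, mul_assoc, mul_inv_cancel, mul_one]
  rw [hcom] at hw
  have h1 : P ^ w = Q ^ ((r : ℤ) ^ E - v ^ E) := by
    rw [zpow_sub, hw]
    group
  have h2 := (h.ind' h1).2
  have h3 : (r : ℤ) ^ E = v ^ E := by linarith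
  rcases pow_eq_pow_iff_cases.1 h3 with h4 | h4 | ⟨h4, -⟩
  · exact absurd h4 h.pos.ne'
  · -- the case `v = r`
    rw [← h4] at he
    have key2 : ∀ k : ℕ, a ^ k * Q ^ r * (a ^ k)⁻¹ = P ^ (u * k) * Q ^ r := by
      intro k
      induction k with
      | zero => simp
      | succ k ih =>
        have e1 : a ^ (k + 1) * Q ^ r * (a ^ (k + 1))⁻¹ =
            a * (a ^ k * Q ^ r * (a ^ k)⁻¹) * a⁻¹ := by
          rw [pow_succ' a]
          group
        have e2 : a * (P ^ (u * k) * Q ^ r) * a⁻¹ = (a * P ^ (u * k) * a⁻¹) * (a * Q ^ r * a⁻¹) := by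
          group
        rw [e1, ih, e2, hu, he, zpow_natCast, ← mul_assoc, ← zpow_add]
        congr 2
        push_cast
        ring
    have h5 := key2 E
    have hcom' : a ^ E * Q ^ r * (a ^ E)⁻¹ = Q ^ r := by
      rw [← hP, (hPQ.pow_right _).eq, mul_assoc, mul_inv_cancel, mul_one]
    rw [hcom'] at h5
    have h6 : P ^ (u * E) = Q ^ (0 : ℤ) := by
      rw [zpow_zero]
      exact mul_eq_right.1 h5.symm
    have h7 := (h.ind' h6).1
    have h8 : u = 0 := (mul_eq_zero.1 h7).resolve_right (by exact_mod_cast h.pos.ne')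
    rw [h8, zpow_zero, one_mul, zpow_natCast] at he
    have h9 : Commute a (Q ^ r) := mul_inv_eq_iff_eq_mul.1 he
    have h10 : Commute (a ^ 2) (b ^ ((E : ℤ) * r)) := by
      rw [zpow_mul, zpow_natCast, zpow_natCast]
      exact h9.pow_left 2
    exact h.vb _ _ (mul_ne_zero (by exact_mod_cast h.pos.ne') (by exact_mod_cast hr.ne')) h10
  · -- the case `v = - r`
    have h5 : v = - r := by omega
    rw [h5] at he
    have h6 : a ^ 2 * Q ^ r * (a ^ 2)⁻¹ = Q ^ r := by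
      have e1 : a ^ 2 * Q ^ r * (a ^ 2)⁻¹ = a * (a * Q ^ r * a⁻¹) * a⁻¹ := by
        rw [sq]
        group
      have e2 : a * (P ^ u * Q ^ (-(r : ℤ))) * a⁻¹ =
          (a * P ^ u * a⁻¹) * (a * Q ^ r * a⁻¹)⁻¹ := by
        rw [zpow_neg, zpow_natCast]
        group
      rw [e1, he, e2, hu, he, mul_inv_rev, zpow_neg, inv_inv, zpow_natCast, ← mul_assoc,
        ((hPQ.zpow_left u).pow_right r).eq, mul_assoc, mul_inv_cancel, mul_one]
    have h9 : Commute (a ^ 2) (Q ^ r) := mul_inv_eq_iff_eq_mul.1 h6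
    have h10 : Commute (a ^ 2) (b ^ ((E : ℤ) * r)) := by
      rw [zpow_mul, zpow_natCast, zpow_natCast]
      exact h9
    exact h.vb _ _ (mul_ne_zero (by exact_mod_cast h.pos.ne') (by exact_mod_cast hr.ne')) h10

/-- `b ^ E` as a conjugate. -/
lemma Aba.pow_b (h : Aba a b x) (n : ℕ) : b ^ n = x * a ^ n * x⁻¹ := by
  rw [h.hb, conj_pow']

lemma comm_conj_iff {g p q : G} : Commute (g⁻¹ * p * g) q ↔ Commute p (g * q * g⁻¹) := by
  constructor
  · intro h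
    have h1 := conj_comm (g := 1) h (Commute.one_left _)
    show p * (g * q * g⁻¹) = g * q * g⁻¹ * p
    have h2 : g⁻¹ * p * g * q = q * (g⁻¹ * p * g) := h
    calc p * (g * q * g⁻¹) = g * (g⁻¹ * p * g * q) * g⁻¹ := by group
      _ = g * (q * (g⁻¹ * p * g)) * g⁻¹ := by rw [h2]
      _ = _ := by group
  · intro h
    show g⁻¹ * p * g * q = q * (g⁻¹ * p * g)
    have h2 : p * (g * q * g⁻¹) = g * q * g⁻¹ * p := h
    calc g⁻¹ * p * g * q = g⁻¹ * (p * (g * q * g⁻¹)) * g := by group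
      _ = g⁻¹ * (g * q * g⁻¹ * p) * g := by rw [h2]
      _ = _ := by group

theorem Ind.sq_b (h : Ind a b x E) : Commute (b ^ 2) (a ^ E) := by
  have h1 : Commute (x⁻¹ * a ^ E * x) (a ^ E) := by
    rw [comm_conj_iff, ← h.pow_b]
    exact h.comm
  obtain ⟨r, hr, u, v, he⟩ := h.pow_mem h1
  have h2 : Commute (a ^ 2) ((x⁻¹ * a ^ E * x) ^ r) := by
    rw [he]
    refine Commute.mul_right ?_ ?_
    · have : Commute (a ^ 2) (a ^ E) := by simp
      exact this.zpow_right u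
    · exact h.sq_a.zpow_right v
  have h3 : (x⁻¹ * a ^ E * x) ^ r = x⁻¹ * a ^ (E * r) * x := by
    have := conj_pow' x⁻¹ (a ^ E) r
    rw [inv_inv] at this
    rw [this, ← pow_mul]
  rw [h3] at h2
  have h4 : Commute (b ^ 2) (a ^ (E * r)) := by
    rw [h.pow_b]
    exact (comm_conj_iff.1 h2.symm).symm
  refine h.va _ ((E * r : ℕ) : ℤ) ?_ ?_
  · exact_mod_cast (Nat.mul_pos h.pos hr).ne'
  · rw [zpow_natCast]
    exact h4

/-- The elements which commute with `a ^ E` and `b ^ E`. -/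
def KK (a b : G) (E : ℕ) : Subgroup G := CC a E ⊓ CC b E

lemma mem_KK {g : G} : g ∈ KK a b E ↔ Commute g (a ^ E) ∧ Commute g (b ^ E) := by
  unfold KK
  rw [mem_inf, mem_CC, mem_CC]

lemma Ind.K1 (h : Ind a b x E) {m : G} (hm : Commute m (a ^ E)) :
    ∃ r : ℕ, 0 < r ∧ ∀ k ∈ KK a b E, Commute k (m ^ r) := by
  obtain ⟨r, hr, u, v, he⟩ := h.pow_mem hm
  refine ⟨r, hr, fun k hk => ?_⟩
  rw [mem_KK] at hk
  rw [he]
  exact (hk.1.zpow_right u).mul_right (hk.2.zpow_right v)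

lemma Ind.pow_mem_b (h : Ind a b x E) {m : G} (hm : Commute m (b ^ E)) :
    ∃ r : ℕ, 0 < r ∧ ∃ u v : ℤ, m ^ r = (b ^ E) ^ u * (x * b ^ E * x⁻¹) ^ v := by
  have h1 : Commute (x⁻¹ * m * x) (a ^ E) := by
    rw [comm_conj_iff, ← h.pow_b]
    exact hm
  obtain ⟨r, hr, u, v, he⟩ := h.pow_mem h1
  refine ⟨r, hr, u, v, ?_⟩
  have h3 : (x⁻¹ * m * x) ^ r = x⁻¹ * m ^ r * x := by
    have := conj_pow' x⁻¹ m r
    rwa [inv_inv] at this
  rw [h3] at he
  calc m ^ r = x * (x⁻¹ * m ^ r * x) * x⁻¹ := by group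
    _ = (x * a ^ E * x⁻¹) ^ u * (x * b ^ E * x⁻¹) ^ v := by
      rw [he, conj_zpow, conj_zpow]
      group
    _ = _ := by rw [← h.pow_b]

lemma Ind.K2 (h : Ind a b x E) {m : G} (hm : Commute m (b ^ E)) :
    ∃ r : ℤ, r ≠ 0 ∧ ∀ k ∈ KK a b E, Commute k (m ^ r) := by
  obtain ⟨r, hr, u, v, he⟩ := h.pow_mem_b h.comm
  have hy : Commute (b ^ E) (x * b ^ E * x⁻¹) := by
    have : Commute (x⁻¹ * b ^ E * x) (b ^ E) := by
      have e : x⁻¹ * b ^ E * x = a ^ E := by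
        rw [h.pow_b]
        group
      rw [e]
      exact h.comm
    exact comm_conj_iff.1 this
  have hv : v ≠ 0 := by
    rintro rfl
    rw [zpow_zero, mul_one, ← zpow_natCast] at he
    have := (h.ind' he).1
    omega
  have hkv : ∀ k ∈ KK a b E, Commute k ((x * b ^ E * x⁻¹) ^ v) := by
    intro k hk
    rw [mem_KK] at hk
    have e : (x * b ^ E * x⁻¹) ^ v = ((b ^ E) ^ u)⁻¹ * (a ^ E) ^ r := by
      rw [he]
      group
    rw [e]
    exact ((hk.2.zpow_right u).inv_right).mul_right (hk.1.pow_right r)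
  obtain ⟨r', hr', u', v', he'⟩ := h.pow_mem_b hm
  refine ⟨r' * v, mul_ne_zero (by exact_mod_cast hr'.ne') hv, fun k hk => ?_⟩
  have hc : Commute ((b ^ E) ^ u') ((x * b ^ E * x⁻¹) ^ v') := (hy.zpow_left _).zpow_right _
  rw [zpow_mul, zpow_natCast, he', hc.mul_zpow]
  refine Commute.mul_right ?_ ?_
  · exact ((mem_KK.1 hk).2.zpow_right _).zpow_right _
  · rw [← zpow_mul, mul_comm, zpow_mul]
    exact (hkv k hk).zpow_right _

lemma Ind.conj_a (h : Ind a b x E) (i : ℤ) {k : G} (hk : k ∈ KK a b E) :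
    a ^ i * k * (a ^ i)⁻¹ ∈ KK a b E := by
  have hk' := mem_KK.1 hk
  rw [mem_KK]
  refine ⟨conj_comm hk'.1 (self_comm a E i), ?_⟩
  have h1 : Commute ((a ^ i)⁻¹ * b ^ E * a ^ i) (a ^ E) := by
    have := conj_comm (g := (a ^ i)⁻¹) h.comm.symm (self_comm a E i).inv_left
    rwa [inv_inv] at this
  obtain ⟨r, hr, hK⟩ := h.K1 h1
  have h2 := hK k hk
  have h3 : ((a ^ i)⁻¹ * b ^ E * a ^ i) ^ r = (a ^ i)⁻¹ * b ^ (E * r) * a ^ i := by
    have := conj_pow' (a ^ i)⁻¹ (b ^ E) r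
    rw [inv_inv] at this
    rw [this, ← pow_mul]
  rw [h3] at h2
  have h4 : Commute (a ^ i * k * (a ^ i)⁻¹) (b ^ (E * r)) :=
    (comm_conj_iff.1 h2.symm).symm
  refine h.vb _ ((E * r : ℕ) : ℤ) ?_ ?_
  · exact_mod_cast (Nat.mul_pos h.pos hr).ne'
  · rw [zpow_natCast]
    exact h4

lemma Ind.conj_b (h : Ind a b x E) (j : ℤ) {k : G} (hk : k ∈ KK a b E) :
    b ^ j * k * (b ^ j)⁻¹ ∈ KK a b E := by
  have hk' := mem_KK.1 hk
  rw [mem_KK]
  refine ⟨?_, conj_comm hk'.2 (self_comm b E j)⟩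
  have h1 : Commute ((b ^ j)⁻¹ * a ^ E * b ^ j) (b ^ E) := by
    have := conj_comm (g := (b ^ j)⁻¹) h.comm (self_comm b E j).inv_left
    rwa [inv_inv] at this
  obtain ⟨r, hr, hK⟩ := h.K2 h1
  have h2 := hK k hk
  have h3 : ((b ^ j)⁻¹ * a ^ E * b ^ j) ^ r = (b ^ j)⁻¹ * a ^ ((E : ℤ) * r) * b ^ j := by
    have := conj_zpow (a := (b ^ j)⁻¹) (b := a ^ E) (i := r)
    rw [inv_inv] at this
    rw [this, zpow_mul, zpow_natCast]
  rw [h3] at h2
  have h4 : Commute (b ^ j * k * (b ^ j)⁻¹) (a ^ ((E : ℤ) * r)) :=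
    (comm_conj_iff.1 h2.symm).symm
  exact h.va _ _ (mul_ne_zero (by exact_mod_cast h.pos.ne') hr) h4

theorem Ind.normal (h : Ind a b x E) : (KK a b E).Normal := by
  refine ⟨fun k hk g => ?_⟩
  obtain ⟨i, j, l, rfl⟩ := h.gen g
  have := h.conj_a i (h.conj_b j (h.conj_a l hk))
  have e : a ^ i * b ^ j * a ^ l * k * (a ^ i * b ^ j * a ^ l)⁻¹ =
      a ^ i * (b ^ j * (a ^ l * k * (a ^ l)⁻¹) * (b ^ j)⁻¹) * (a ^ i)⁻¹ := by group
  rw [e]
  exact this

end Pool.Agent.Work.MP_302c96_al
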