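import Pool.Agent.Work.MP_302c96_al.Kern

set_option autoImplicit false

/-!
The kernel is abelian of finite index, and the quotient is soluble.
-/

namespace Pool.Agent.Work.MP_302c96_al

open Subgroup Pointwise

variable {G : Type*} [Group G] {a b x : G} {E : ℕ}

lemma Ind.comm_K (h : Ind a b x E) : ∀ k ∈ KK a b E, ∀ l ∈ KK a b E, k * l = l * k := by
  set K := KK a b E with hK
  set N := NN (a ^ E) (b ^ E) h.comm with hN
  have hNK : (N.subgroupOf K) ≤ center K := by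
    rintro ⟨n, hn⟩ hn'
    rw [mem_subgroupOf] at hn'
    obtain ⟨u, v, huv⟩ := hn'
    rw [mem_center_iff]
    rintro ⟨k, hk⟩
    apply Subtype.ext
    show k * n = n * k
    have hk' := mem_KK.1 hk
    have huv' : n = (a ^ E) ^ u * (b ^ E) ^ v := huv
    rw [huv']
    exact (hk'.1.zpow_right u).mul_right (hk'.2.zpow_right v)
  have hKC : K ≤ CC a E := inf_le_left
  have hfin : N.relIndex K ≠ 0 := fun h0 => h.finite (relIndex_eq_zero_of_le_right hKC h0)
  have : (N.subgroupOf K).FiniteIndex := ⟨hfin⟩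
  have : (center K).FiniteIndex := Subgroup.finiteIndex_of_le hNK
  set d := (center K).index with hd
  have hd0 : d ≠ 0 := FiniteIndex.index_ne_zero
  -- torsion elements are trivial
  have htor : ∀ k : K, k ^ d = 1 → k = 1 := by
    intro k hk
    obtain ⟨i, j, l, hg⟩ := h.gen (k : G)
    -- conjugate by `a ^ l`
    have hu := h.conj_a l k.2
    have hu' : a ^ l * (k : G) * (a ^ l)⁻¹ = a ^ (l + i) * b ^ j := by
      rw [hg, zpow_add]
      group
    rw [hu'] at hu
    have hu2 := mem_KK.1 hu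
    have hcA : a ^ (l + i) ∈ K := by
      rw [hK, mem_KK]
      refine ⟨self_comm a E _, ?_⟩
      have e : a ^ (l + i) = a ^ (l + i) * b ^ j * (b ^ j)⁻¹ := by group
      rw [e]
      exact hu2.2.mul_left (self_comm b E j).inv_left
    have hcB : b ^ j ∈ K := by
      rw [hK, mem_KK]
      refine ⟨?_, self_comm b E _⟩
      have e : b ^ j = (a ^ (l + i))⁻¹ * (a ^ (l + i) * b ^ j) := by group
      rw [e]
      exact (self_comm a E _).inv_left.mul_left hu2.1
    have hpow : (a ^ (l + i) * b ^ j) ^ d = 1 := by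
      rw [← hu', conj_pow']
      have : (k : G) ^ d = 1 := by
        have := congrArg (fun z : K => (z : G)) hk
        simpa using this
      rw [this, mul_one, mul_inv_cancel]
    have ht := map_mul (MonoidHom.transferCenterPow K) ⟨_, hcA⟩ ⟨_, hcB⟩
    have ht' : (a ^ (l + i) * b ^ j) ^ d = (a ^ (l + i)) ^ d * (b ^ j) ^ d := by
      have := congrArg (fun z : center K => ((z : K) : G)) ht
      simpa using this
    rw [hpow] at ht'
    have h1 : a ^ ((l + i) * d) = b ^ (-(j * d)) := by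
      rw [zpow_mul, zpow_neg, zpow_mul, zpow_natCast, zpow_natCast]
      exact eq_inv_of_mul_eq_one_left ht'.symm
    have h2 := h.ind _ _ h1
    have hdz : (d : ℤ) ≠ 0 := by exact_mod_cast hd0
    have h3 : l + i = 0 := (mul_eq_zero.1 h2).resolve_right hdz
    rw [h2, zpow_zero] at h1
    have h4 := h.inf_b _ h1.symm
    have h5 : j = 0 := by
      have : j * d = 0 := by linarith
      exact (mul_eq_zero.1 this).resolve_right hdz
    apply Subtype.ext
    rw [hg, h5]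
    have h6 : i = -l := by omega
    rw [h6]
    simp
  intro k hk l hl
  have h1 : (⟨k, hk⟩ * ⟨l, hl⟩ * (⟨l, hl⟩ * ⟨k, hk⟩)⁻¹ : K) = 1 := by
    apply htor
    have hcc : ∀ s t : center K, s * t = t * s := fun s t =>
      Subtype.ext (mem_center_iff.1 t.2 s)
    have h2 : MonoidHom.transferCenterPow K (⟨k, hk⟩ * ⟨l, hl⟩ * (⟨l, hl⟩ * ⟨k, hk⟩)⁻¹) = 1 := by
      rw [map_mul, map_mul, map_inv, map_mul, hcc (MonoidHom.transferCenterPow K ⟨l, hl⟩)]
      exact mul_inv_cancel _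
    have h3 : ((MonoidHom.transferCenterPow K
      (⟨k, hk⟩ * ⟨l, hl⟩ * (⟨l, hl⟩ * ⟨k, hk⟩)⁻¹) : center K) : K) = 1 := by
      rw [h2]
      rfl
    rw [MonoidHom.transferCenterPow_apply] at h3
    exact h3
  have h4 := mul_inv_eq_one.1 h1
  have := congrArg (fun z : K => (z : G)) h4
  simpa using this

/-- An integer is congruent to `0` or `1` modulo `2`. -/
lemma two_split (i : ℤ) : ∃ (q : ℤ) (r : Fin 2), i = 2 * q + ((r : ℕ) : ℤ) := by
  rcases Int.even_or_odd' i with ⟨q, hq | hq⟩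
  · exact ⟨q, 0, by simpa using hq⟩
  · exact ⟨q, 1, by simpa using hq⟩

lemma Ind.sq_a_mem (h : Ind a b x E) (q : ℤ) : a ^ (2 * q) ∈ KK a b E := by
  rw [mem_KK]
  refine ⟨self_comm a E _, ?_⟩
  rw [zpow_mul, zpow_ofNat]
  exact h.sq_a.zpow_left q

lemma Ind.sq_b_mem (h : Ind a b x E) (q : ℤ) : b ^ (2 * q) ∈ KK a b E := by
  rw [mem_KK]
  refine ⟨?_, self_comm b E _⟩
  rw [zpow_mul, zpow_ofNat]
  exact h.sq_b.zpow_left q

lemma Ind.mk_pow_a (h : Ind a b x E) [(KK a b E).Normal] (i : ℤ) :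
    ∃ r : Fin 2, (QuotientGroup.mk' (KK a b E)) (a ^ i) =
      (QuotientGroup.mk' (KK a b E)) (a ^ (((r : ℕ) : ℤ))) := by
  obtain ⟨q, r, hi⟩ := two_split i
  refine ⟨r, ?_⟩
  rw [hi, zpow_add, map_mul, (QuotientGroup.eq_one_iff _).2 (h.sq_a_mem q) |> fun e =>
    (show (QuotientGroup.mk' (KK a b E)) (a ^ (2 * q)) = 1 from e), one_mul]

lemma Ind.mk_pow_b (h : Ind a b x E) [(KK a b E).Normal] (i : ℤ) :
    ∃ r : Fin 2, (QuotientGroup.mk' (KK a b E)) (b ^ i) =
      (QuotientGroup.mk' (KK a b E)) (b ^ (((r : ℕ) : ℤ))) := by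
  obtain ⟨q, r, hi⟩ := two_split i
  refine ⟨r, ?_⟩
  rw [hi, zpow_add, map_mul, (QuotientGroup.eq_one_iff _).2 (h.sq_b_mem q) |> fun e =>
    (show (QuotientGroup.mk' (KK a b E)) (b ^ (2 * q)) = 1 from e), one_mul]

theorem Ind.finiteIndex (h : Ind a b x E) : (KK a b E).FiniteIndex := by
  have := h.normal
  have hsurj : Function.Surjective (fun t : Fin 2 × Fin 2 × Fin 2 =>
      (QuotientGroup.mk' (KK a b E)) (a ^ (((t.1 : ℕ) : ℤ))) *
      (QuotientGroup.mk' (KK a b E)) (b ^ (((t.2.1 : ℕ) : ℤ))) *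
      (QuotientGroup.mk' (KK a b E)) (a ^ (((t.2.2 : ℕ) : ℤ)))) := by
    intro q
    obtain ⟨g, rfl⟩ := QuotientGroup.mk'_surjective (KK a b E) q
    obtain ⟨i, j, k, rfl⟩ := h.gen g
    obtain ⟨r1, h1⟩ := h.mk_pow_a i
    obtain ⟨r2, h2⟩ := h.mk_pow_b j
    obtain ⟨r3, h3⟩ := h.mk_pow_a k
    exact ⟨(r1, r2, r3), by simp only; rw [map_mul, map_mul, h1, h2, h3]⟩
  have : Finite (G ⧸ KK a b E) := Finite.of_surjective _ hsurj
  exact Subgroup.finiteIndex_of_finite_quotient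

/-- A group in which every element is a word `α ^ i * β ^ j * α ^ k` in two involutions is
soluble. -/
lemma dihedral_solvable {Q : Type*} [Group Q] (α β : Q) (hα : α * α = 1) (hβ : β * β = 1)
    (hgen : ∀ g : Q, ∃ i j k : ℤ, g = α ^ i * β ^ j * α ^ k) : Group.IsSolvable Q := by
  have hα' : α⁻¹ = α := inv_eq_of_mul_eq_one_left hα
  have hβ' : β⁻¹ = β := inv_eq_of_mul_eq_one_left hβ
  set ρ := α * β with hρ
  have h1 : α * ρ * α⁻¹ = ρ⁻¹ := by
    rw [hρ, mul_inv_rev, hβ', hα', ← mul_assoc, hα, one_mul]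
  have h2 : β * ρ * β⁻¹ = ρ⁻¹ := by
    rw [hρ, mul_inv_rev, hβ', hα', mul_assoc β, mul_assoc α, hβ, mul_one]
  have hn : ∀ (γ : Q), γ * ρ * γ⁻¹ = ρ⁻¹ → γ⁻¹ = γ → ∀ (i : ℤ) (g : Q), g ∈ zpowers ρ →
      γ ^ i * g * (γ ^ i)⁻¹ ∈ zpowers ρ := by
    intro γ hγ hγ' i g hg
    have hone : ∀ g ∈ zpowers ρ, γ * g * γ⁻¹ ∈ zpowers ρ := by
      rintro _ ⟨n, rfl⟩
      refine ⟨-n, ?_⟩
      show ρ ^ (-n) = γ * ρ ^ n * γ⁻¹
      rw [← conj_zpow, hγ, inv_zpow, zpow_neg]
    obtain ⟨q, r, hi⟩ := two_split i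
    have hsq : γ ^ (2 * q) = 1 := by
      have : γ ^ (2 : ℤ) = 1 := by
        rw [zpow_two]
        nth_rewrite 1 [← hγ']
        exact inv_mul_cancel γ
      rw [zpow_mul, this, one_zpow]
    rw [hi, zpow_add, hsq, one_mul]
    fin_cases r
    · simpa using hg
    · simpa using hone g hg
  have hnor : (zpowers ρ).Normal := by
    refine ⟨fun g hg q => ?_⟩
    obtain ⟨i, j, k, rfl⟩ := hgen q
    have e : α ^ i * β ^ j * α ^ k * g * (α ^ i * β ^ j * α ^ k)⁻¹ =
      α ^ i * (β ^ j * (α ^ k * g * (α ^ k)⁻¹) * (β ^ j)⁻¹) * (α ^ i)⁻¹ := by group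
    rw [e]
    exact hn α h1 hα' i _ (hn β h2 hβ' j _ (hn α h1 hα' k _ hg))
  have : Group.IsSolvable (zpowers ρ) := by
    apply Group.isSolvable_of_comm
    rintro ⟨_, m, rfl⟩ ⟨_, n, rfl⟩
    exact Subtype.ext (zpow_mul_comm ρ m n)
  have : Group.IsSolvable (Q ⧸ zpowers ρ) := by
    apply Group.isSolvable_of_comm
    have hb : (QuotientGroup.mk' (zpowers ρ)) β = (QuotientGroup.mk' (zpowers ρ)) α := by
      have : (QuotientGroup.mk' (zpowers ρ)) ρ = 1 :=
        (QuotientGroup.eq_one_iff _).2 (mem_zpowers ρ)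
      have h4 : (QuotientGroup.mk' (zpowers ρ)) α * (QuotientGroup.mk' (zpowers ρ)) β = 1 := by
        rw [← map_mul]
        exact this
      have h3 := eq_inv_of_mul_eq_one_right h4
      rw [h3, ← map_inv, hα']
    have hp : ∀ q : Q ⧸ zpowers ρ, ∃ n : ℤ, q = (QuotientGroup.mk' (zpowers ρ)) α ^ n := by
      intro q
      obtain ⟨g, rfl⟩ := QuotientGroup.mk'_surjective (zpowers ρ) q
      obtain ⟨i, j, k, rfl⟩ := hgen g
      exact ⟨i + j + k, by rw [map_mul, map_mul, map_zpow, map_zpow, map_zpow, hb, zpow_add,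
        zpow_add]⟩
    intro s t
    obtain ⟨m, rfl⟩ := hp s
    obtain ⟨n, rfl⟩ := hp t
    rw [← zpow_add, ← zpow_add, add_comm]
  refine Group.isSolvable_of_ker_le_range (zpowers ρ).subtype (QuotientGroup.mk' (zpowers ρ)) ?_
  rw [QuotientGroup.ker_mk', Subgroup.range_subtype]

theorem Ind.solvable (h : Ind a b x E) : Group.IsSolvable G := by
  have := h.normal
  have : Group.IsSolvable (KK a b E) := by
    apply Group.isSolvable_of_comm
    rintro ⟨k, hk⟩ ⟨l, hl⟩
    exact Subtype.ext (h.comm_K k hk l hl)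
  have : Group.IsSolvable (G ⧸ KK a b E) := by
    refine dihedral_solvable ((QuotientGroup.mk' (KK a b E)) a)
      ((QuotientGroup.mk' (KK a b E)) b) ?_ ?_ ?_
    · rw [← map_mul]
      have := h.sq_a_mem 1
      rw [mul_one, zpow_two] at this
      exact (QuotientGroup.eq_one_iff _).2 this
    · rw [← map_mul]
      have := h.sq_b_mem 1
      rw [mul_one, zpow_two] at this
      exact (QuotientGroup.eq_one_iff _).2 this
    · intro q
      obtain ⟨g, rfl⟩ := QuotientGroup.mk'_surjective (KK a b E) q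
      obtain ⟨i, j, k, rfl⟩ := h.gen g
      exact ⟨i, j, k, by rw [map_mul, map_mul, map_zpow, map_zpow, map_zpow]⟩
  refine Group.isSolvable_of_ker_le_range (KK a b E).subtype (QuotientGroup.mk' (KK a b E)) ?_
  rw [QuotientGroup.ker_mk', Subgroup.range_subtype]

/-- If `A` and `B` meet nontrivially, the centre has finite index. -/
theorem Aba.centre_fin (h : Aba a b x) {i j : ℤ} (hij : a ^ i = b ^ j) (hi : i ≠ 0) :
    (center G).FiniteIndex := by
  have hj : j ≠ 0 := by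
    rintro rfl
    rw [zpow_zero] at hij
    exact hi (h.inf _ hij)
  have hz : a ^ i ∈ center G := by
    rw [mem_center_iff]
    intro g
    obtain ⟨p, q, r, rfl⟩ := h.gen g
    have h1 : ∀ p : ℤ, Commute (a ^ p) (a ^ i) := fun p => Commute.zpow_zpow_self a _ _
    have h2 : Commute (b ^ q) (a ^ i) := by
      rw [hij]
      exact Commute.zpow_zpow_self b _ _
    exact ((h1 p).mul_left h2).mul_left (h1 r)
  have hsplit : ∀ (n : ℤ), n ≠ 0 → ∀ k : ℤ, ∃ (q : ℤ) (r : Fin n.natAbs),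
      k = n * q + ((r : ℕ) : ℤ) := by
    intro n hn k
    have h1 := Int.emod_nonneg k hn
    have h2 := Int.emod_lt_abs k hn
    rw [Int.abs_eq_natAbs] at h2
    refine ⟨k / n, ⟨(k % n).toNat, by omega⟩, ?_⟩
    simp only [Int.toNat_of_nonneg h1]
    exact (Int.mul_ediv_add_emod k n).symm
  have hA : ∀ k : ℤ, ∃ r : Fin i.natAbs, (QuotientGroup.mk' (center G)) (a ^ k) =
      (QuotientGroup.mk' (center G)) (a ^ (((r : ℕ) : ℤ))) := by
    intro k
    obtain ⟨q, r, hk⟩ := hsplit i hi k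
    refine ⟨r, ?_⟩
    have e : (QuotientGroup.mk' (center G)) (a ^ (i * q)) = 1 :=
      (QuotientGroup.eq_one_iff _).2 (by rw [zpow_mul]; exact zpow_mem hz q)
    rw [hk, zpow_add, map_mul, e, one_mul]
  have hB : ∀ k : ℤ, ∃ r : Fin j.natAbs, (QuotientGroup.mk' (center G)) (b ^ k) =
      (QuotientGroup.mk' (center G)) (b ^ (((r : ℕ) : ℤ))) := by
    intro k
    obtain ⟨q, r, hk⟩ := hsplit j hj k
    refine ⟨r, ?_⟩
    have e : (QuotientGroup.mk' (center G)) (b ^ (j * q)) = 1 :=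
      (QuotientGroup.eq_one_iff _).2 (by rw [zpow_mul, ← hij]; exact zpow_mem hz q)
    rw [hk, zpow_add, map_mul, e, one_mul]
  have hsurj : Function.Surjective (fun t : Fin i.natAbs × Fin j.natAbs × Fin i.natAbs =>
      (QuotientGroup.mk' (center G)) (a ^ (((t.1 : ℕ) : ℤ))) *
      (QuotientGroup.mk' (center G)) (b ^ (((t.2.1 : ℕ) : ℤ))) *
      (QuotientGroup.mk' (center G)) (a ^ (((t.2.2 : ℕ) : ℤ)))) := by
    intro q
    obtain ⟨g, rfl⟩ := QuotientGroup.mk'_surjective (center G) q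
    obtain ⟨i, j, k, rfl⟩ := h.gen g
    obtain ⟨r1, h1⟩ := hA i
    obtain ⟨r2, h2⟩ := hB j
    obtain ⟨r3, h3⟩ := hA k
    exact ⟨(r1, r2, r3), by simp only; rw [map_mul, map_mul, h1, h2, h3]⟩
  have : Finite (G ⧸ center G) := Finite.of_surjective _ hsurj
  exact Subgroup.finiteIndex_of_finite_quotient

end Pool.Agent.Work.MP_302c96_al
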